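import Pool.Agent.ASE.Stmts5
import Pool.Agent.Helper90_ASO.CPG
import Pool.Agent.Helper9_ASO.PPC

/-! Squad ASE, row FIE: the relation (5.5), from TS5, FWD, DAV, DVS, WTA, PRB. -/

open scoped BigOperators

noncomputable section

namespace Pool.Agent.PP.SE.H71

open Pool.Agent.Helper51_AWC Pool.Agent.Helper79_WRA Pool.Agent.PP Pool.Agent.PP.KF
open Pool.Agent.PP.K9 Pool.Agent.PP.K9.H97 Pool.Agent.PP.H75 Pool.Agent.PP.T3 Pool.Agent.PP.SO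
open Pool.Agent.PP.SD Pool.Agent.PP.SO.H90

attribute [local instance] Ideal.Quotient.field

section gen

variable {M : Ideal (integralClosure ℤ ℂ)} [M.IsMaximal]

/-- a sum of terms in `RM` -/
theorem fm_RM {ι : Type} {s : Set ι} {f : ι → ℂ} (h : ∀ i ∈ s, f i ∈ RM M) :
    ∑ᶠ i ∈ s, f i ∈ RM M := finsum_mem_RM h

/-- termwise comparison of two sums modulo `RM` -/
theorem fm_sub_RM {ι : Type} [Finite ι] {s : Set ι} {f g : ι → ℂ}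
    (h : ∀ i ∈ s, f i - g i ∈ RM M) : ∑ᶠ i ∈ s, f i - ∑ᶠ i ∈ s, g i ∈ RM M := by
  rw [← finsum_mem_sub_distrib _ _ (Set.toFinite s)]
  exact finsum_mem_RM h

/-- a finite sum with a constant factor -/
theorem fm_mul {ι : Type} [Finite ι] {s : Set ι} (f : ι → ℂ) (z : ℂ) :
    z * ∑ᶠ i ∈ s, f i = ∑ᶠ i ∈ s, z * f i := by
  exact mul_finsum_mem f z

/-- linear combinations in sums -/
theorem fm_lin {ι : Type} [Finite ι] {s : Set ι} (L : ι → ℂ) (b b' : ι → ℚ) (u : ℚ) :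
    ∑ᶠ i ∈ s, L i * ((b i - u * b' i : ℚ) : ℂ) =
      ∑ᶠ i ∈ s, L i * ((b i : ℚ) : ℂ) - (u : ℂ) * ∑ᶠ i ∈ s, L i * ((b' i : ℚ) : ℂ) := by
  rw [fm_mul, ← finsum_mem_sub_distrib _ _ (Set.toFinite s)]
  refine finsum_mem_congr rfl fun i _ => ?_
  push_cast
  ring

/-- linear combinations in sums -/
theorem fm_lin' {ι : Type} [Finite ι] {s : Set ι} (L : ι → ℂ) (b b' : ι → ℚ) (u : ℚ) :
    ∑ᶠ i ∈ s, L i * ((u * (b i - b' i) : ℚ) : ℂ) =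
      (u : ℂ) * (∑ᶠ i ∈ s, L i * ((b i : ℚ) : ℂ) - ∑ᶠ i ∈ s, L i * ((b' i : ℚ) : ℂ)) := by
  rw [← finsum_mem_sub_distrib _ _ (Set.toFinite s), fm_mul]
  refine finsum_mem_congr rfl fun i _ => ?_
  push_cast
  ring

/-- terms which vanish can be left out -/
theorem fm_part {ι : Type} {p q : ι → Prop} {f : ι → ℂ} (h : ∀ i, p i → ¬ q i → f i = 0) :
    ∑ᶠ i ∈ {i : ι | p i ∧ q i}, f i = ∑ᶠ i ∈ {i : ι | p i}, f i := by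
  refine finsum_congr fun i => ?_
  by_cases hq : q i
  · exact finsum_congr_Prop (propext ⟨fun h => h.1, fun h => ⟨h, hq⟩⟩) fun _ => rfl
  · have e1 : ∑ᶠ _ : i ∈ {i : ι | p i ∧ q i}, f i = 0 := by
      have h0 : ¬ i ∈ {i : ι | p i ∧ q i} := fun hi => hq hi.2
      simp only [h0, finsum_false]
    have e2 : ∑ᶠ _ : i ∈ {i : ι | p i}, f i = 0 := by
      by_cases hp : p i
      · rw [h i hp hq]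
        simp only [finsum_zero]
      · have h0 : ¬ i ∈ {i : ι | p i} := hp
        simp only [h0, finsum_false]
    rw [e1, e2]

/-- the assembly -/
theorem asm {ι : Type} [Finite ι] (S : Set ι) {T1 T2 T3 D1 D1' D2 D3 Z : ι → ℂ} {x : ℂ}
    (h1 : ∀ i ∈ S, T1 i - D1' i ∈ RM M) (h1' : ∀ i ∈ S, D1' i = D1 i + Z i)
    (h2 : ∀ i ∈ S, T2 i - D2 i ∈ RM M) (h3 : ∀ i ∈ S, T3 i - D3 i ∈ RM M)
    (hT : x + ∑ᶠ i ∈ S, (T1 i + T2 i + T3 i) ∈ RM M)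
    (hV : ∑ᶠ i ∈ S, (D1 i + D2 i + D3 i) ∈ RM M) : x + ∑ᶠ i ∈ S, Z i ∈ RM M := by
  have k : ∑ᶠ i ∈ S, (T1 i + T2 i + T3 i) - ∑ᶠ i ∈ S, ((D1 i + D2 i + D3 i) + Z i) ∈ RM M := by
    refine fm_sub_RM fun i hi => ?_
    refine (congrArg (· ∈ RM M) ?_).mp (add_mem (add_mem (h1 i hi) (h2 i hi)) (h3 i hi))
    rw [h1' i hi]
    ring
  have e := finsum_mem_add_distrib (f := fun i => D1 i + D2 i + D3 i) (g := Z) (Set.toFinite S)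
  rw [e] at k
  refine (congrArg (· ∈ RM M) ?_).mp (sub_mem (sub_mem hT k) hV)
  ring

/-- `mob` is linear -/
theorem mob_sub {A : Type} [Finite A] (F F' : Set A → ℚ) (L : Set A) :
    mob (fun τ => F τ - F' τ) L = mob F L - mob F' L := by
  unfold mob
  rw [← finsum_mem_sub_distrib _ _ (Set.toFinite _)]
  refine finsum_mem_congr rfl fun T _ => ?_
  ring

end gen

section fws

variable {V₀ G : Type} [CommGroup V₀] [Finite V₀] [Group G] {M : Ideal (integralClosure ℤ ℂ)}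
  [M.IsMaximal]

/-- `FWS` is linear in `F` -/
theorem fws_sub {n : ℕ} (B : Bk (FF M) V₀ G) (m : ℕ) (σ : MulAut V₀) (a : Subgroup V₀)
    (F F' : Set (SO.SS n V₀) → ℚ) (z : G → ℂ) :
    FWS B m σ a (fun τ => F τ - F' τ) z = FWS B m σ a F z - FWS B m σ a F' z := by
  unfold FWS
  rw [← finsum_mem_sub_distrib _ _ (Set.toFinite _)]
  refine finsum_mem_congr rfl fun L _ => ?_
  rw [mob_sub]
  push_cast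
  ring

end fws

section units

variable {ℓ : ℕ} [Fact ℓ.Prime] {V₀ : Type} [CommGroup V₀]

/-- the numbers `ux` are in `Rl` with their inverses -/
theorem ux_rl {U : Subgroup V₀ → ℚ} {W : Subgroup V₀}
    (h : ∃ q ∈ SOR.Rl ℓ, U W = 1 + ℓ * q) (c : V₀) :
    ux U W c ∈ SOR.Rl ℓ ∧ (ux U W c)⁻¹ ∈ SOR.Rl ℓ := by
  obtain ⟨q, hq, e⟩ := h
  unfold ux
  split_ifs with hc
  · exact ⟨one_mem _, by rw [inv_one]; exact one_mem _⟩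
  · refine ⟨?_, (H9P.unit_of ℓ hq e).2⟩
    rw [e]
    exact add_mem (one_mem _) (mul_mem (H9P.l_mem ℓ) hq)

/-- the numbers `cS` are in `Rl` -/
theorem cS_rl {U : Subgroup V₀ → ℚ} {W : Subgroup V₀}
    (h : ∃ q ∈ SOR.Rl ℓ, U W = 1 + ℓ * q) (c d : V₀) (σ : MulAut V₀) :
    cS U c d σ W ∈ SOR.Rl ℓ := by
  unfold cS
  rw [div_eq_mul_inv]
  exact mul_mem (mul_mem (ux_rl h c).1 (ux_rl h _).1) (ux_rl h _).2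

end units

section term

variable {ℓ : ℕ} [Fact ℓ.Prime] {V₀ G : Type} [CommGroup V₀] [Finite V₀] [Group G] [Finite G]
  {M : Ideal (integralClosure ℤ ℂ)} [M.IsMaximal] {E₀ : Subgroup (MulAut V₀)} {B : Bk (FF M) V₀ G}
  {D : Rd V₀ G}

/-- an integer multiple of `SE1 / ℓ ^ 2` -/
theorem se_RM {x : ℂ} (h : x / (ℓ : ℂ) ^ 2 ∈ RM M) (k : ℤ) : (k : ℂ) / (ℓ : ℂ) ^ 2 * x ∈ RM M := by
  have e : (k : ℂ) / (ℓ : ℂ) ^ 2 * x = (k : ℂ) * (x / (ℓ : ℂ) ^ 2) := by ring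
  rw [e]
  exact mul_mem (rr_int (M := M) k).1 h

end term

/-- Row FIE: the relation (5.5). -/
theorem fie (hTs5 : Ts5Stmt) (hFwd : FwdStmt) (hDav : DavStmt) (hDvs : DvsStmt) (hWta : WtaStmt)
    (hPrb : PrbStmt) : FieStmt := by
  intro ℓ _ M _ hM h2 V₀ G _ _ _ _ E₀ hq B hB D hD n m hPE ρ₁ ρ₂ x₁ x₂ h1 h2' l1 l2 F₁₃ Ψ M₁ M₂ K
    hFE hRel c d hc hd
  have hF : ∀ (kc kd : V₀) (a : Subgroup V₀), a ∈ RL ℓ E₀ → ∀ κ ∈ a, ∀ σ ∈ E₀,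
      FWS B m σ a (F12 ℓ x₁ x₂ Ψ M₁ M₂ K kc kd) (tk B κ (D.et a)) =
      -(((x₁ κ⁻¹ * x₂ (σ⁻¹ κ)⁻¹ : ℤ) : ℂ) / (ℓ : ℂ) ^ 2) * LL B (etl B D a κ ⊥) +
      ∑ᶠ ζ ∈ {ζ : V₀ | ζ ∈ a ∧ ζ ≠ 1}, LW ℓ E₀ B D a κ ζ *
        ((BrF ℓ x₁ x₂ kc kd κ σ ζ : ℚ) : ℂ) -
      ((x₁ kc⁻¹ * x₂ kd⁻¹ - x₁ κ⁻¹ * x₂ (σ⁻¹ κ)⁻¹ : ℤ) : ℂ) / (ℓ : ℂ) ^ 2 * SE1 B D a κ :=
    fun kc kd a ha κ hκ σ hσ => hFwd ℓ M hM h2 V₀ G E₀ hq B hB D hD n m hPE ρ₁ ρ₂ x₁ x₂ h1 h2' l1 l2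
      F₁₃ Ψ M₁ M₂ K hFE kc kd a ha κ hκ σ hσ
  have hT := hTs5 ℓ M hM h2 V₀ G E₀ hq B hB D hD n m hPE ρ₁ ρ₂ x₁ x₂ h1 h2' l1 l2
      F₁₃ Ψ M₁ M₂ K hFE hRel c d hc hd
  have hA := fun (a : Subgroup V₀) (ha : a ∈ RL ℓ E₀) (σ : MulAut V₀) (hσ : σ ∈ E₀)
      (hn : c * σ d ∉ a) => hDav ℓ M hM h2 V₀ G E₀ hq B hB D hD n m hPE ρ₁ ρ₂ x₁ x₂ h1 h2' l1 l2
      F₁₃ Ψ M₁ M₂ K hFE c d a ha σ hσ hn
  have hW := fun (a : Subgroup V₀) (ha : a ∈ RL ℓ E₀) (κ : V₀) (hκ : κ ∈ a) =>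
    hWta ℓ M hM h2 V₀ G E₀ hq B hB D hD a ha κ hκ
  have hP : ∀ a ∈ RL ℓ E₀, ∀ v, pr ℓ E₀ a v ∈ a := fun a ha => (hPrb ℓ V₀ E₀ hq a).2.2.2.2.1 ha
  have hV := hDvs ℓ M hM V₀ E₀ hq D.U hD.u1 ρ₁ ρ₂ x₁ x₂ h1 h2' l1 l2
    (fun a κ ζ => LW ℓ E₀ B D a κ ζ) (fun a ha κ hκ ζ => (hW a ha κ hκ).2.2 ζ) c d
  have hb : ∀ a ∈ RL ℓ E₀, a ≠ ⊥ := by
    rintro a ⟨ha, -⟩ rfl
    rw [Subgroup.card_bot] at ha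
    exact (Fact.out : ℓ.Prime).one_lt.ne ha
  have hu : ∀ a ∈ RL ℓ E₀, ∀ v, ((ux D.U a v : ℚ) : ℂ) ∈ RM M := fun a ha v =>
    rl_rm hM (ux_rl (hD.u1 a (hb a ha)) v).1
  have hcS : ∀ a ∈ RL ℓ E₀, ∀ σ : MulAut V₀, ((cS D.U c d σ a : ℚ) : ℂ) ∈ RM M :=
    fun a ha σ => rl_rm hM (cS_rl (hD.u1 a (hb a ha)) c d σ)
  -- the part of the lines not containing `c * σ d`
  have k1 : ∀ σ ∈ E₀, (∑ᶠ a ∈ {a : Subgroup V₀ | a ∈ RL ℓ E₀ ∧ c * σ d ∉ a},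
      (DAS ℓ E₀ B D c d σ a (F12 ℓ x₁ x₂ Ψ M₁ M₂ K c d) - (cS D.U c d σ a : ℚ) *
        FWS B m σ a (F12 ℓ x₁ x₂ Ψ M₁ M₂ K c d) (tk B (pr ℓ E₀ a (c * σ d)) (D.et a)))) -
      (∑ᶠ a ∈ {a : Subgroup V₀ | a ∈ RL ℓ E₀ ∧ c * σ d ∉ a},
        ((∑ᶠ ζ ∈ {ζ : V₀ | ζ ∈ a ∧ ζ ≠ 1},
          LW ℓ E₀ B D a (pr ℓ E₀ a (c * σ d)) ζ * ((BrF ℓ x₁ x₂ c d (c * σ d) σ ζ -
            cS D.U c d σ a * BrF ℓ x₁ x₂ c d (pr ℓ E₀ a (c * σ d)) σ ζ : ℚ) : ℂ)) +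
        ((cS D.U c d σ a : ℚ) : ℂ) *
        (((x₁ (pr ℓ E₀ a (c * σ d))⁻¹ * x₂ (σ⁻¹ (pr ℓ E₀ a (c * σ d)))⁻¹ : ℤ) : ℂ) /
          (ℓ : ℂ) ^ 2) * LL B (etl B D a (pr ℓ E₀ a (c * σ d)) ⊥))) ∈ RM M := by
    intro σ hσ
    refine fm_sub_RM fun a ha => ?_
    have e := hF c d a ha.1 _ (hP a ha.1 (c * σ d)) σ hσ
    rw [e, fm_lin]
    have e1 := hA a ha.1 σ hσ ha.2
    have e2 := mul_mem (hcS a ha.1 σ) (se_RM (hW a ha.1 _ (hP a ha.1 (c * σ d))).2.1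
      (x₁ c⁻¹ * x₂ d⁻¹ - x₁ (pr ℓ E₀ a (c * σ d))⁻¹ * x₂ (σ⁻¹ (pr ℓ E₀ a (c * σ d)))⁻¹))
    have e3 := add_mem e1 e2
    refine (congrArg (· ∈ RM M) ?_).mp e3
    ring
  -- the differences for `c`
  have k2 : ∀ σ ∈ E₀, (∑ᶠ a ∈ {a : Subgroup V₀ | a ∈ RL ℓ E₀ ∧ c ∉ a}, (ux D.U a (σ d) : ℚ) *
      FWS B m σ a (fun τ => F12 ℓ x₁ x₂ Ψ M₁ M₂ K c d τ -
        F12 ℓ x₁ x₂ Ψ M₁ M₂ K (pr ℓ E₀ a c) d τ) (tk B (pr ℓ E₀ a (c * σ d)) (D.et a))) -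
      (∑ᶠ a ∈ {a : Subgroup V₀ | a ∈ RL ℓ E₀ ∧ c ∉ a}, ∑ᶠ ζ ∈ {ζ : V₀ | ζ ∈ a ∧ ζ ≠ 1},
        LW ℓ E₀ B D a (pr ℓ E₀ a (c * σ d)) ζ * ((ux D.U a (σ d) *
          (BrF ℓ x₁ x₂ c d (pr ℓ E₀ a (c * σ d)) σ ζ -
            BrF ℓ x₁ x₂ (pr ℓ E₀ a c) d (pr ℓ E₀ a (c * σ d)) σ ζ) : ℚ) : ℂ)) ∈ RM M := by
    intro σ hσ
    refine fm_sub_RM fun a ha => ?_
    have e := hF c d a ha.1 _ (hP a ha.1 (c * σ d)) σ hσ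
    have e' := hF (pr ℓ E₀ a c) d a ha.1 _ (hP a ha.1 (c * σ d)) σ hσ
    rw [fws_sub, e, e', fm_lin']
    have e1 := mul_mem (hu a ha.1 (σ d)) (se_RM (hW a ha.1 _ (hP a ha.1 (c * σ d))).2.1
      (x₁ (pr ℓ E₀ a c)⁻¹ * x₂ d⁻¹ - x₁ c⁻¹ * x₂ d⁻¹))
    refine (congrArg (· ∈ RM M) ?_).mp e1
    push_cast
    ring
  -- the differences for `d`
  have k3 : ∀ σ ∈ E₀, (∑ᶠ a ∈ {a : Subgroup V₀ | a ∈ RL ℓ E₀ ∧ σ d ∉ a}, (ux D.U a c : ℚ) *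
      FWS B m σ a (fun τ => F12 ℓ x₁ x₂ Ψ M₁ M₂ K c d τ -
        F12 ℓ x₁ x₂ Ψ M₁ M₂ K c (σ⁻¹ (pr ℓ E₀ a (σ d))) τ)
        (tk B (pr ℓ E₀ a (c * σ d)) (D.et a))) -
      (∑ᶠ a ∈ {a : Subgroup V₀ | a ∈ RL ℓ E₀ ∧ σ d ∉ a}, ∑ᶠ ζ ∈ {ζ : V₀ | ζ ∈ a ∧ ζ ≠ 1},
        LW ℓ E₀ B D a (pr ℓ E₀ a (c * σ d)) ζ * ((ux D.U a c *
          (BrF ℓ x₁ x₂ c d (pr ℓ E₀ a (c * σ d)) σ ζ -
            BrF ℓ x₁ x₂ c (σ⁻¹ (pr ℓ E₀ a (σ d))) (pr ℓ E₀ a (c * σ d)) σ ζ) : ℚ) : ℂ)) ∈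
        RM M := by
    intro σ hσ
    refine fm_sub_RM fun a ha => ?_
    have e := hF c d a ha.1 _ (hP a ha.1 (c * σ d)) σ hσ
    have e' := hF c (σ⁻¹ (pr ℓ E₀ a (σ d))) a ha.1 _ (hP a ha.1 (c * σ d)) σ hσ
    rw [fws_sub, e, e', fm_lin']
    have e1 := mul_mem (hu a ha.1 c) (se_RM (hW a ha.1 _ (hP a ha.1 (c * σ d))).2.1
      (x₁ c⁻¹ * x₂ (σ⁻¹ (pr ℓ E₀ a (σ d)))⁻¹ - x₁ c⁻¹ * x₂ d⁻¹))
    refine (congrArg (· ∈ RM M) ?_).mp e1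
    push_cast
    ring
  -- the terms with `LL` of the labels `et`
  have k4 : ∑ᶠ σ ∈ {σ : MulAut V₀ | σ ∈ E₀ ∧ c * σ d ≠ 1},
      (∑ᶠ a ∈ {a : Subgroup V₀ | a ∈ RL ℓ E₀ ∧ c * σ d ∉ a}, ((cS D.U c d σ a : ℚ) : ℂ) *
        (((x₁ (pr ℓ E₀ a (c * σ d))⁻¹ * x₂ (σ⁻¹ (pr ℓ E₀ a (c * σ d)))⁻¹ : ℤ) : ℂ) /
          (ℓ : ℂ) ^ 2) * LL B (etl B D a (pr ℓ E₀ a (c * σ d)) ⊥)) =
      ∑ᶠ σ ∈ {σ : MulAut V₀ | σ ∈ E₀},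
      (∑ᶠ a ∈ {a : Subgroup V₀ | a ∈ RL ℓ E₀ ∧ c * σ d ∉ a}, ((cS D.U c d σ a : ℚ) : ℂ) *
        (((x₁ (pr ℓ E₀ a (c * σ d))⁻¹ * x₂ (σ⁻¹ (pr ℓ E₀ a (c * σ d)))⁻¹ : ℤ) : ℂ) /
          (ℓ : ℂ) ^ 2) * LL B (etl B D a (pr ℓ E₀ a (c * σ d)) ⊥)) := by
    refine fm_part fun σ _ h => ?_
    have h' : c * σ d = 1 := by
      by_contra h''
      exact h h''
    have hs : {a : Subgroup V₀ | a ∈ RL ℓ E₀ ∧ c * σ d ∉ a} = ∅ := by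
      ext a
      simp [h', one_mem]
    rw [hs, finsum_mem_empty]
  -- the sum over `σ`
  have k5 := asm (M := M) {σ : MulAut V₀ | σ ∈ E₀} k1
    (fun σ _ => finsum_mem_add_distrib (Set.toFinite _)) k2 k3 hT hV
  rw [← k4] at k5
  unfold MNE
  rw [finsum_mem_sub_distrib _ _ (Set.toFinite _)]
  refine (congrArg (· ∈ RM M) ?_).mp k5
  ring

end Pool.Agent.PP.SE.H71
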